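import Mathlib
import Pool.Agent.Q64.L.InstA
import Pool.Agent.Q64.U.Thms

/-!
# Unramified cohomology of degree three of the products of varieties over finite fields with almost
all abelian varieties

Let `g i` (`i` in a finite set `I`) be positive integers, `r` an integer smaller than all the `g i`
and `E` a number field. For a prime power `q` let `S i` be the set of the characteristic
polynomials of Frobenius of the ordinary abelian varieties of dimension `g i` over the field with
`q` elements, or of all abelian varieties of dimension `g i`, or any set in between. By Weil, Honda
and Tate its elements correspond to the isogeny classes, the first set contains
`ordinaryWeilPolys q (g i)`, and the second one is contained in `weilPolys q (g i)`.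

For almost all families `f i` in `S i` (`AlmostAll`: with the exception of a proportion
`O (q ^ (-1 / 6) log q)`, the constant depending only on `g`, `r` and `E`) the following is true.
Let `A` be an abelian variety over the field with `Q = q ^ s` elements, `s > 0`, which is isogenous
to a product of powers of abelian varieties coming from the field with `q` elements, with
characteristic polynomials `f i`, and let `Z` be **any** smooth projective variety over the field
with `Q` elements such that

* the eigenvalues `ρ` of Frobenius on the cohomology of `Z` and their conjugates are in a group of
  rank at most `r` over `E` (`RootsRank`): there are nonzero numbers `u 1, ..., u r` such that each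
  `ρ` has a power which is the product of a nonzero element of `E` and of integral powers of
  `u 1, ..., u r`;
* the motive of `Z` is finite-dimensional in the sense of Kimura and O'Sullivan. This is known for
  all varieties dominated by products of curves. It implies that the Frobenius endomorphism of `Z`
  satisfies, as a correspondence modulo rational equivalence, a polynomial equation with the same
  roots as on the cohomology; only this is used.

**The group `H^3_nr (A × Z, ℚ/ℤ(2))` is finite if and only if `H^3_nr (Z, ℚ/ℤ(2))` is finite.**
More precisely, for all `n ≥ 0` the pull-back
`H^(n + 1)_nr (Z, ℚ/ℤ(n)) → H^(n + 1)_nr (A × Z, ℚ/ℤ(n))` is an isomorphism up to groups of bounded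
exponent (`PullIsoBounded`). No case of the conjectures of Tate or Beilinson is assumed. As
`H^3_nr (Z, ℚ/ℤ(2)) = 0` for curves and surfaces (Colliot-Thélène, Sansuc and Soulé),
`H^3_nr (A × Z, ℚ/ℤ(2))` is finite for all curves and all surfaces `Z` with these properties, also
if the Tate conjecture is not known for `Z`. (For `n = 1`, the Brauer groups, the statement is a
consequence of the theorem of Tate on homomorphisms of abelian varieties.)

What is used of `A` are known theorems (`IsAbelian`): `H(A)` is generated by `H^1`, Frobenius is
diagonalizable on `H^1` (Weil), the theorem of Tate on divisors, and the nilpotence of
homologically trivial correspondences (Kimura). Rational coefficients kill torsion groups;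
therefore the theory `T` consists of the groups `(G^ℕ) ⊗ ℚ` (`IsHull`), where `G` is one of the
groups `A^p (X, M, j) = H^p (X_Zar, ℋ^(j + 1) (ℚ/ℤ(j)))` for `X = Z` or `X = A × Z`. The group
`(G^ℕ) ⊗ ℚ` of sequences is zero if and only if `G` has bounded exponent. The group with indices
`p`, `j` has the bidegree `(p + j, j)`; so the product with a cycle of codimension `c` on `A` has
the bidegree `(2 c, c)`, `p = 0` is unramified cohomology (bidegree `(n, n)`), and there are no
groups of bidegree `(i, j)` with `i < j` (`IsUnramified`). Products with cycles, push-forward, and
the operation of correspondences are due to Rost (and to Gros and Suwa for the `p`-primary part);
they are modelled by `RelData`, with the formal properties in `IsTheory`. The Frobenius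
endomorphism of `X` acts on `ℋ^(j + 1) (ℚ/ℤ(j))` as multiplication by `Q ^ j` (`IsPure`). That
`H^3_nr (X, ℚ/ℤ(2))` is a torsion group whose `l`-primary parts are extensions of finite groups by
divisible groups (`IsAlmostDivisible`) is a theorem of Colliot-Thélène and Kahn.

For `r = 0` the assumption on the eigenvalues says that they and their conjugates have powers in
`E`. If for instance a factor of this kind over the field with `q'` elements is given, one can take
for `E` the field generated by the Frobenius eigenvalues and their conjugates, and apply the
theorem to the powers `q` of `q'`.

Relation to other results of this team on this problem (this folder): `AllCMTypesTimes` is about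
the abelian varieties of almost all slope types of given CM fields, and the other factors whose
Frobenius eigenvalues are unrelated to these fields.

The proof. By a sieve (helper521), which only uses the primes that split completely in the Galois
closure of `E` - these have positive density by the theorem of Chebotarev, formalized by helper401
- almost all families are such that each pair `α`, `q / α` of roots can be exchanged by a Galois
automorphism which fixes all the other roots of all the `f i` and also all elements of `E`. So a
multiplicative relation between `ρ`, a power of `q` and roots of the `f i`, other than those which
follow from `α (q / α) = q`, would make the roots of one `f i` generate a group of rank at most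
`r < g i` modulo `E`, up to powers, which is impossible. It follows that the correspondence on `A`
given by the sum of the products of dual classes of divisor products acts as the identity on the
theory of `A × Z`: the Frobenius endomorphism of `A × Z` is the multiplication by `Q ^ j`, so that
the Frobenius endomorphism of `A` satisfies a power of the polynomial reciprocal to that of the
Frobenius endomorphism of `Z`; this polynomial is prime to the one whose value on `H(A)` lies in
the part generated by divisors, and the difference of the two correspondences is nilpotent. So the
theory of `A × Z` is the direct sum of the products of finitely many products of divisors on `A`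
with the theory of `Z`. In the bidegree `(n, n)` only the product with the fundamental class of `A`
remains, as `A^p (Z, M, j) = 0` for `p < 0`. (The idea to play the eigenvalues of Frobenius off
against nilpotence is due to Soulé, Geisser and Kahn.)
-/

set_option autoImplicit false

namespace Pool.Agent.Results.MP_859dd5_ag.AlmostAllTimes

open Pool.Agent.Y156.L Pool.Agent.Q64.L Pool.Agent.Q64.U

/-- **`H^3_nr (A × Z, ℚ/ℤ(2))` is finite if and only if `H^3_nr (Z, ℚ/ℤ(2))` is finite, for almost
all abelian varieties `A` and all smooth projective varieties `Z` of small Frobenius rank.** -/
theorem result {I : Type} [Fintype I] (g : I → ℕ) (r : ℕ) (hr : ∀ i, r < g i)
    (E : IntermediateField ℚ ℂ) [FiniteDimensional ℚ E] :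
    AlmostAll g fun q F => UnramifiedReduces (RootsRank E r) q F :=
  countA g r hr E (fun q F => UnramifiedReduces (RootsRank E r) q F)
    fun _ _ hq hG => unramifiedReduces hq hG

end Pool.Agent.Results.MP_859dd5_ag.AlmostAllTimes
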