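import Mathlib
import Pool.Agent.Q64.N.Main
import Pool.Agent.Q64.U.Thms

/-!
# Unramified cohomology of degree three of the products of varieties over finite fields with
abelian varieties: Newton strata

Fix a prime number `p` and a nonempty finite set `κ`. For `i` in `κ` let `g i` be a dimension and
let `sl i j`, `j < g i`, be rational numbers between `0` and `1 / 2` such that the `sl i j` and
`1 - sl i j` are the slopes of a symmetric Newton polygon with integral break points (`IsNewton`)
which is not the supersingular one, that is `sl i j < 1 / 2` for some `j`. Let `r` be an integer
smaller than all the `g i`, and let `E` be a number field. By the theorem of Honda and Tate,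
`Stratum g sl p a` is the set of the families of isogeny classes of abelian varieties of dimensions
`g i` over the field with `q = p ^ a` elements with these Newton polygons; it consists of the
families `f i` of the characteristic polynomials of Frobenius.

As `a → ∞`, the number of the families in `Stratum g sl p a` tends to infinity, and **the
proportion of those families for which the following is true tends to one**: for all `N` and
`ε > 0` there is an `a₀` such that for `a ≥ a₀` there are at least `N` families, and at most `ε`
times their number are exceptions.

Let `A` be an abelian variety over the field with `Q = q ^ s` elements, `s > 0`, which is isogenous
to a product of powers of abelian varieties coming from the field with `q` elements, with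
characteristic polynomials `f i`, and let `Z` be **any** smooth projective variety over the field
with `Q` elements such that

* the eigenvalues `ρ` of Frobenius on the cohomology of `Z` and their conjugates are in a group of
  rank at most `r` over `E` (`RootsRank`): there are nonzero numbers `u 1, ..., u r` such that each
  `ρ` has a power which is the product of a nonzero element of `E` and of integral powers of
  `u 1, ..., u r`;
* the motive of `Z` is finite-dimensional in the sense of Kimura and O'Sullivan. This is known for
  all varieties dominated by products of curves. It implies that the Frobenius endomorphism of `Z`
  satisfies, as a correspondence modulo rational equivalence, a polynomial equation with the same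
  roots as on the cohomology; only this is used.

**The group `H^3_nr (A × Z, ℚ/ℤ(2))` is finite if and only if `H^3_nr (Z, ℚ/ℤ(2))` is finite.**
More precisely, for all `n ≥ 0` the pull-back
`H^(n + 1)_nr (Z, ℚ/ℤ(n)) → H^(n + 1)_nr (A × Z, ℚ/ℤ(n))` is an isomorphism up to groups of bounded
exponent (`PullIsoBounded`). No case of the conjectures of Tate or Beilinson is assumed. As
`H^3_nr (Z, ℚ/ℤ(2)) = 0` for curves and surfaces (Colliot-Thélène, Sansuc and Soulé),
`H^3_nr (A × Z, ℚ/ℤ(2))` is finite for all curves and all surfaces `Z` with these properties, also
if the Tate conjecture is not known for `Z`. (For `n = 1`, the Brauer groups, the statement is a
consequence of the theorem of Tate on homomorphisms of abelian varieties.)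

What is used of `A` are known theorems (`IsAbelian`): `H(A)` is generated by `H^1`, Frobenius is
diagonalizable on `H^1` (Weil), the theorem of Tate on divisors, and the nilpotence of
homologically trivial correspondences (Kimura). Rational coefficients kill torsion groups;
therefore the theory `T` consists of the groups `(G^ℕ) ⊗ ℚ` (`IsHull`), where `G` is one of the
groups `A^p (X, M, j) = H^p (X_Zar, ℋ^(j + 1) (ℚ/ℤ(j)))` for `X = Z` or `X = A × Z`. The group
`(G^ℕ) ⊗ ℚ` of sequences is zero if and only if `G` has bounded exponent. The group with indices
`p`, `j` has the bidegree `(p + j, j)`; so the product with a cycle of codimension `c` on `A` has
the bidegree `(2 c, c)`, `p = 0` is unramified cohomology (bidegree `(n, n)`), and there are no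
groups of bidegree `(i, j)` with `i < j` (`IsUnramified`). Products with cycles, push-forward, and
the operation of correspondences are due to Rost (and to Gros and Suwa for the `p`-primary part);
they are modelled by `RelData`, with the formal properties in `IsTheory`. The Frobenius
endomorphism of `X` acts on `ℋ^(j + 1) (ℚ/ℤ(j))` as multiplication by `Q ^ j` (`IsPure`). That
`H^3_nr (X, ℚ/ℤ(2))` is a torsion group whose `l`-primary parts are extensions of finite groups by
divisible groups (`IsAlmostDivisible`) is a theorem of Colliot-Thélène and Kahn.

For `r = 0` the assumption on the eigenvalues says that they and their conjugates have powers in
`E`. If for instance a factor of this kind over the field with `q' = p ^ b` elements is given, one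
can take for `E` the field generated by the Frobenius eigenvalues and their conjugates, and apply
the theorem to the fields with `q = p ^ a` elements, `b | a`. A supersingular abelian variety may
always be added to the other factor.

Relation to other results. `AlmostAllTimes` (this folder) is about almost all abelian varieties of
given dimensions. Almost all of these are ordinary, and each other Newton polygon belongs to a
proportion of the isogeny classes which tends to zero; so that theorem says nothing about any
Newton polygon which is not ordinary. Here the characteristic and the Newton polygons are given:
for instance one obtains almost all those abelian varieties of a given dimension at least three,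
over the fields of characteristic `p`, which have `p`-rank zero and are not supersingular. The
count of the families in a stratum is that of helper518 (`NewtonStrata`, MP_ee618e_ag, where it is
applied to the Tate conjecture for the products of the abelian varieties in the stratum and
supersingular ones).

The proof. The elements of the stratum correspond to integral points in a box whose sides tend to
infinity: the coefficients of the trace polynomials, divided by the powers of `p` prescribed by the
Newton polygons (helper518). We apply the sieve only with primes which split completely in the
Galois closure of `E`; there are infinitely many (Chebotarev, formalized by helper401). So for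
almost all families the trace polynomials are irreducible, and each pair `α`, `q / α` of roots can
be exchanged by a Galois automorphism which fixes all the other roots of all the `f i` and all
elements of `E`. No root is supersingular, as some slope is smaller than `1 / 2`. A multiplicative
relation between `ρ`, a power of `q` and roots of the `f i`, other than those which follow from
`α (q / α) = q`, expresses some power of `α ^ 2 / q`, for all roots `α` of one `f i`, by conjugates
of `ρ`; by the automorphisms above these `g i > r` numbers are multiplicatively independent, also
modulo `E`, which is a contradiction. It follows that the correspondence on `A` given by the sum of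
the products of dual classes of divisor products acts as the identity on the theory of `A × Z`: the
Frobenius endomorphism of `A × Z` is the multiplication by `Q ^ j`, so that the Frobenius
endomorphism of `A` satisfies a power of the polynomial reciprocal to that of the Frobenius
endomorphism of `Z`; this polynomial is prime to the one whose value on `H(A)` lies in the part
generated by divisors, and the difference of the two correspondences is nilpotent. So the theory of
`A × Z` is the direct sum of the products of finitely many products of divisors on `A` with the
theory of `Z`. In the bidegree `(n, n)` only the product with the fundamental class of `A` remains,
as `A^p (Z, M, j) = 0` for `p < 0`. (The idea to play the eigenvalues of Frobenius off against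
nilpotence is due to Soulé, Geisser and Kahn.)
-/

set_option autoImplicit false

namespace Pool.Agent.Results.MP_859dd5_ag.NewtonStrata

open Polynomial Pool.Agent.Q64.N Pool.Agent.Q64.U
open Pool.Agent.Q64.L (RootsRank)

/-- **`H^3_nr (A × Z, ℚ/ℤ(2))` is finite if and only if `H^3_nr (Z, ℚ/ℤ(2))` is finite, for all
smooth projective varieties `Z` whose Frobenius eigenvalues and their conjugates are of rank at
most `r` over `E`, for almost all families of abelian varieties in each Newton stratum over the
fields of characteristic `p`.** -/
theorem result {κ : Type} [Fintype κ] [Nonempty κ] (p : ℕ) [Fact p.Prime]
    -- dimensions and Newton polygons
    (g : κ → ℕ) (sl : ∀ i, Fin (g i) → ℚ) (hsl : ∀ i, IsNewton (sl i))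
    (hss : ∀ i, ∃ j, sl i j < 1 / 2)
    -- the rank and the number field
    (r : ℕ) (hr : ∀ i, r < g i) (E : IntermediateField ℚ ℂ) [FiniteDimensional ℚ E]
    -- a number of families, a proportion of exceptions
    (N : ℕ) (ε : ℝ) (hε : 0 < ε) :
    ∃ a₀ : ℕ, ∀ a, a₀ ≤ a →
      (Stratum g sl p a).Finite ∧ N ≤ (Stratum g sl p a).ncard ∧
      ({f ∈ Stratum g sl p a | ¬ UnramifiedReduces (RootsRank E r) (p ^ a) f}.ncard : ℝ) ≤
        ε * ((Stratum g sl p a).ncard : ℝ) :=
  strata p g sl hsl hss r hr E (fun a f => UnramifiedReduces (RootsRank E r) (p ^ a) f)
    (fun _ _ _ hq hG => unramifiedReduces hq hG) N ε hε

end Pool.Agent.Results.MP_859dd5_ag.NewtonStrata
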